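import Mathlib
import Pool.Agent.Q212.ConstRate

/-!
# A standard discrete poset without maximal elements and without constant rate distributions
-/

namespace Pool.Agent.Results.MP_5a8271_pr.NotAllSupport

/-- A standard discrete poset: nonempty, countable, every down-set `D[x]` finite. -/
def IsStandardDiscrete (S : Type) [PartialOrder S] : Prop :=
  Nonempty S ∧ Countable S ∧ ∀ x : S, {y : S | y ≤ x}.Finite

/-- No element of `S` is maximal. -/
def HasNoMaximal (S : Type) [PartialOrder S] : Prop :=
  ∀ x : S, ∃ y : S, x ≤ y ∧ y ≠ x

/-- The upper probability function `F(x) = ∑_{y ≥ x} f(y)`. -/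
noncomputable def upperProb {S : Type} [PartialOrder S] (f : S → ℝ) (x : S) : ℝ :=
  ∑' y : {y : S // x ≤ y}, f y

/-- `S` supports a constant rate distribution: there are a probability density function `f` on `S`
and `α > 0` such that the upper probability function `F` of `f` is positive everywhere and
`f = α F`. -/
def SupportsConstantRate (S : Type) [PartialOrder S] : Prop :=
  ∃ (f : S → ℝ) (α : ℝ), (∀ x, 0 ≤ f x) ∧ HasSum f 1 ∧ 0 < α ∧
    (∀ x, 0 < upperProb f x) ∧ ∀ x, f x = α * upperProb f x

/-- Not every standard discrete poset without maximal elements admits a distribution of constant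
rate: the finite subsets of the positive integers, ordered by inclusion, are a counterexample. -/
theorem result :
    (¬ ∀ (S : Type) [PartialOrder S], IsStandardDiscrete S → HasNoMaximal S →
      SupportsConstantRate S) ∧
    IsStandardDiscrete (Finset ℕ+) ∧ HasNoMaximal (Finset ℕ+) ∧
      ¬ SupportsConstantRate (Finset ℕ+) := by
  have h1 : IsStandardDiscrete (Finset ℕ+) := by
    refine ⟨⟨∅⟩, inferInstance, ?_⟩
    intro x
    have : {y : Finset ℕ+ | y ≤ x} = ↑x.powerset := by
      ext y
      simp
    rw [this]
    exact Finset.finite_toSet _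
  have h2 : HasNoMaximal (Finset ℕ+) := by
    intro x
    obtain ⟨i, hi⟩ := Infinite.exists_notMem_finset x
    refine ⟨insert i x, Finset.subset_insert i x, ?_⟩
    intro h
    exact hi (h ▸ Finset.mem_insert_self i x)
  have h3 : ¬ SupportsConstantRate (Finset ℕ+) := by
    rintro ⟨f, α, hnn, hsum, hα, hF, hf⟩
    have h4 := (Pool.Agent.Q212.ConstRate.constant_rate_real f α hnn hsum hf).2.2 {1}
      (Finset.singleton_ne_empty 1)
    have h5 := hf {1}
    have h6 := mul_pos hα (hF {1})
    linarith
  exact ⟨fun h => h3 (h (Finset ℕ+) h1 h2), h1, h2, h3⟩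

end Pool.Agent.Results.MP_5a8271_pr.NotAllSupport
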